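import Pool.Agent.Y916.Stm

/-!
The functions `∫ z^s / T dz` form a G-system.
-/

set_option autoImplicit false

open PowerSeries Finset.HasAntidiagonal

namespace Pool.Agent.Y419.LB

open Pool.Agent.Y113 Pool.Agent.Y916

/-! ## domination by polynomials with nonnegative coefficients -/

def Dm (P : Polynomial ℤ) (A : ℝ) : Prop :=
  ∃ Q : Polynomial ℝ, (∀ l, |((P.coeff l : ℤ) : ℝ)| ≤ Q.coeff l) ∧ Q.eval 1 ≤ A

lemma eval_eq (Q : Polynomial ℝ) : Q.eval 1 = ∑ i ∈ Finset.range (Q.natDegree + 1), Q.coeff i := by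
  rw [Polynomial.eval_eq_sum_range]
  exact Finset.sum_congr rfl fun i _ => by rw [one_pow, mul_one]

lemma eval_nonneg {Q : Polynomial ℝ} (h : ∀ l, 0 ≤ Q.coeff l) : 0 ≤ Q.eval 1 := by
  rw [eval_eq]
  exact Finset.sum_nonneg fun i _ => h i

lemma coeff_le_eval {Q : Polynomial ℝ} (h : ∀ l, 0 ≤ Q.coeff l) (l : ℕ) : Q.coeff l ≤ Q.eval 1 := by
  by_cases hl : l ≤ Q.natDegree
  · rw [eval_eq]
    exact Finset.single_le_sum (f := fun i => Q.coeff i) (fun i _ => h i)
      (Finset.mem_range.mpr (by omega))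
  · rw [Polynomial.coeff_eq_zero_of_natDegree_lt (by omega)]
    exact eval_nonneg h

lemma Dm.coeff {P : Polynomial ℤ} {A : ℝ} (h : Dm P A) (l : ℕ) : |((P.coeff l : ℤ) : ℝ)| ≤ A := by
  obtain ⟨Q, h1, h2⟩ := h
  exact (h1 l).trans ((coeff_le_eval (fun l => (abs_nonneg _).trans (h1 l)) l).trans h2)

lemma Dm.nonneg {P : Polynomial ℤ} {A : ℝ} (h : Dm P A) : 0 ≤ A := (abs_nonneg _).trans (h.coeff 0)

lemma Dm.mono {P : Polynomial ℤ} {A B : ℝ} (h : Dm P A) (hAB : A ≤ B) : Dm P B := by
  obtain ⟨Q, h1, h2⟩ := h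
  exact ⟨Q, h1, h2.trans hAB⟩

lemma Dm.mul {P P' : Polynomial ℤ} {A B : ℝ} (h : Dm P A) (h' : Dm P' B) : Dm (P * P') (A * B) := by
  obtain ⟨Q, h1, h2⟩ := h
  obtain ⟨Q', h1', h2'⟩ := h'
  refine ⟨Q * Q', fun l => ?_, ?_⟩
  · rw [Polynomial.coeff_mul, Polynomial.coeff_mul]
    push_cast
    refine (Finset.abs_sum_le_sum_abs _ _).trans (Finset.sum_le_sum fun p _ => ?_)
    rw [abs_mul]
    exact mul_le_mul (h1 _) (h1' _) (abs_nonneg _) ((abs_nonneg _).trans (h1 _))
  · rw [Polynomial.eval_mul]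
    have e1 := eval_nonneg (fun l => (abs_nonneg _).trans (h1 l))
    have e2 := eval_nonneg (fun l => (abs_nonneg _).trans (h1' l))
    exact mul_le_mul h2 h2' e2 (e1.trans h2)

lemma Dm.add {P P' : Polynomial ℤ} {A B : ℝ} (h : Dm P A) (h' : Dm P' B) : Dm (P + P') (A + B) := by
  obtain ⟨Q, h1, h2⟩ := h
  obtain ⟨Q', h1', h2'⟩ := h'
  refine ⟨Q + Q', fun l => ?_, ?_⟩
  · rw [Polynomial.coeff_add, Polynomial.coeff_add]
    push_cast
    exact (abs_add_le _ _).trans (add_le_add (h1 l) (h1' l))
  · rw [Polynomial.eval_add]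
    exact add_le_add h2 h2'

lemma Dm.neg {P : Polynomial ℤ} {A : ℝ} (h : Dm P A) : Dm (-P) A := by
  obtain ⟨Q, h1, h2⟩ := h
  refine ⟨Q, fun l => ?_, h2⟩
  rw [Polynomial.coeff_neg]
  push_cast
  rw [abs_neg]
  exact h1 l

lemma Dm.zero : Dm 0 0 := ⟨0, by simp, by simp⟩

lemma Dm.one : Dm 1 1 := by
  refine ⟨1, fun l => ?_, by simp⟩
  rw [Polynomial.coeff_one, Polynomial.coeff_one]
  split_ifs <;> simp

lemma Dm.pow {P : Polynomial ℤ} {A : ℝ} (h : Dm P A) (k : ℕ) : Dm (P ^ k) (A ^ k) := by
  induction k with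
  | zero => simpa using Dm.one
  | succ k ih =>
    rw [pow_succ, pow_succ]
    exact ih.mul h

lemma Dm.sum {σ : Type} (s : Finset σ) {f : σ → Polynomial ℤ} {A : σ → ℝ}
    (h : ∀ i ∈ s, Dm (f i) (A i)) : Dm (∑ i ∈ s, f i) (∑ i ∈ s, A i) := by
  classical
  induction s using Finset.induction_on with
  | empty => simpa using Dm.zero
  | insert a s ha ih =>
    rw [Finset.sum_insert ha, Finset.sum_insert ha]
    exact (h a (Finset.mem_insert_self a s)).add (ih fun i hi => h i (Finset.mem_insert_of_mem hi))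

lemma Dm.of_bound {P : Polynomial ℤ} {n : ℕ} {B : ℝ} (hn : P.natDegree ≤ n) (_ : 0 ≤ B)
    (hB : ∀ l, l ≤ n → |((P.coeff l : ℤ) : ℝ)| ≤ B) : Dm P ((n + 1) * B) := by
  refine ⟨∑ l ∈ Finset.range (n + 1), Polynomial.monomial l B, fun l => ?_, ?_⟩
  · rw [Polynomial.finsetSum_coeff]
    simp only [Polynomial.coeff_monomial]
    rw [Finset.sum_ite_eq']
    by_cases hl : l ≤ n
    · rw [if_pos (Finset.mem_range.mpr (by omega))]
      exact hB l hl
    · rw [if_neg (by rw [Finset.mem_range]; omega),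
        Polynomial.coeff_eq_zero_of_natDegree_lt (by omega)]
      simp
  · rw [Polynomial.eval_finsetSum]
    simp only [Polynomial.eval_monomial, one_pow, mul_one]
    rw [Finset.sum_const, Finset.card_range, nsmul_eq_mul]
    push_cast
    exact le_rfl

/-! ## integer polynomials as power series -/

lemma coeff_ps (P : Polynomial ℤ) (m : ℕ) : coeff m (ps P) = ((P.coeff m : ℤ) : ℚ) := by
  unfold ps
  rw [Polynomial.coeff_coe, Polynomial.coeff_map]
  rfl

lemma ps_hasse (k : ℕ) (P : Polynomial ℤ) : ps (Polynomial.hasseDeriv k P) = hd k (ps P) := by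
  ext m
  rw [coeff_ps, coeff_hd, coeff_ps, Polynomial.hasseDeriv_coeff]
  push_cast
  rfl

lemma ps_sub (P Q : Polynomial ℤ) : ps (P - Q) = ps P - ps Q := by
  ext m
  rw [map_sub, coeff_ps, coeff_ps, coeff_ps, Polynomial.coeff_sub]
  push_cast
  rfl

lemma ps_X_pow (i : ℕ) : ps (Polynomial.X ^ i) = (X : ℚ⟦X⟧) ^ i := by
  ext m
  rw [coeff_ps, Polynomial.coeff_X_pow, coeff_X_pow]
  split_ifs <;> simp

lemma ps_mul_U {T : Polynomial ℤ} (h0 : T.coeff 0 = 1) : ps T * U T = 1 := by
  unfold U
  apply PowerSeries.mul_inv_cancel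
  rw [← coeff_zero_eq_constantCoeff_apply, coeff_ps, h0]
  norm_num

/-- integrality and size of the coefficients of `1 / T` -/
lemma U_coeff {T : Polynomial ℤ} {H : ℕ} (h0 : T.coeff 0 = 1) (hT : ∀ l, |T.coeff l| ≤ H) (m : ℕ) :
    ∃ a : ℤ, coeff m (U T) = a ∧ |(a : ℝ)| ≤ ((H : ℝ) + 1) ^ m := by
  induction m using Nat.strong_induction_on with
  | _ m ih =>
    rcases Nat.eq_zero_or_pos m with rfl | hm
    · refine ⟨1, ?_, by simp⟩
      have h1 := congrArg (coeff 0) (ps_mul_U h0)
      rw [coeff_mul] at h1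
      simp [coeff_ps, h0] at h1
      simpa using h1
    · obtain ⟨k, rfl⟩ : ∃ k, m = k + 1 := ⟨m - 1, by omega⟩
      have h1 := congrArg (coeff (k + 1)) (ps_mul_U h0)
      rw [coeff_mul, coeff_one, if_neg (by omega), Finset.Nat.sum_antidiagonal_succ, coeff_ps, h0]
        at h1
      choose! a ha1 ha2 using ih
      refine ⟨-∑ p ∈ antidiagonal k, T.coeff (p.1 + 1) * a p.2, ?_, ?_⟩
      · push_cast
        have h2 : ∀ p ∈ antidiagonal k, coeff (p.1 + 1) (ps T) * coeff p.2 (U T)
            = ((T.coeff (p.1 + 1) : ℤ) : ℚ) * (a p.2 : ℚ) := by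
          intro p hp
          rw [Finset.HasAntidiagonal.mem_antidiagonal] at hp
          rw [coeff_ps, ha1 p.2 (by omega)]
        rw [Finset.sum_congr rfl h2] at h1
        push_cast at h1
        linarith
      · push_cast
        rw [abs_neg]
        refine (Finset.abs_sum_le_sum_abs _ _).trans ?_
        have h3 : ∀ p ∈ antidiagonal k, |((T.coeff (p.1 + 1) : ℤ) : ℝ) * (a p.2 : ℝ)|
            ≤ H * ((H : ℝ) + 1) ^ p.2 := by
          intro p hp
          rw [Finset.HasAntidiagonal.mem_antidiagonal] at hp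
          rw [abs_mul]
          refine mul_le_mul ?_ (ha2 p.2 (by omega)) (abs_nonneg _) (by positivity)
          have := hT (p.1 + 1)
          exact_mod_cast this
        refine (Finset.sum_le_sum h3).trans ?_
        rw [Finset.Nat.sum_antidiagonal_eq_sum_range_succ_mk]
        simp only
        have h4 : ∑ j ∈ Finset.range (k + 1), (H : ℝ) * ((H : ℝ) + 1) ^ (k - j)
            = ∑ j ∈ Finset.range (k + 1), (H : ℝ) * ((H : ℝ) + 1) ^ j := by
          have := Finset.sum_range_reflect (fun j => (H : ℝ) * ((H : ℝ) + 1) ^ j) (k + 1)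
          rw [← this]
          exact Finset.sum_congr rfl fun j _ => by
            rw [show k + 1 - 1 - j = k - j by omega]
        rw [h4, ← Finset.mul_sum]
        have h5 := geom_sum_mul ((H : ℝ) + 1) (k + 1)
        rw [add_sub_cancel_right] at h5
        rw [mul_comm, h5]
        linarith

/-- the numerators of the derivatives of `X ^ i / T` -/
lemma numer {n : ℕ} {T : Polynomial ℤ} {H : ℕ} (h0 : T.coeff 0 = 1) (hn : T.natDegree ≤ n)
    (hT : ∀ l, |T.coeff l| ≤ H) (i : ℕ) (hi : i < n) (k : ℕ) :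
    ∃ P : Polynomial ℤ, P.natDegree ≤ n * k + i ∧
      Dm P ((((n : ℝ) + 1) * H) ^ (k + 1) * 2 ^ n * (1 + 2 ^ n) ^ k) ∧
      ps P = ps T ^ (k + 1) * hd k (X ^ i * U T) := by
  have hH : (1 : ℝ) ≤ H := by
    have := hT 0
    rw [h0] at this
    have h1 : (1 : ℤ) ≤ H := by simpa using this
    exact_mod_cast h1
  have hTr : ∀ l, |((T.coeff l : ℤ) : ℝ)| ≤ H := fun l => by exact_mod_cast hT l
  set L : ℝ := ((n : ℝ) + 1) * H with hL
  have hDT : Dm T L := Dm.of_bound hn (by linarith) fun l _ => hTr l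
  have hDh : ∀ j, Dm (Polynomial.hasseDeriv j T) (2 ^ n * L) := by
    intro j
    have h1 : (Polynomial.hasseDeriv j T).natDegree ≤ n :=
      (Polynomial.natDegree_hasseDeriv_le T j).trans (by omega)
    refine (Dm.of_bound (B := 2 ^ n * H) h1 (by positivity) fun l _ => ?_).mono (le_of_eq ?_)
    · rw [Polynomial.hasseDeriv_coeff]
      push_cast
      rw [abs_mul]
      by_cases hl : l + j ≤ n
      · refine mul_le_mul ?_ (hTr _) (abs_nonneg _) (by positivity)
        rw [abs_of_nonneg (by positivity)]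
        have h2 : (l + j).choose j ≤ 2 ^ n := (Nat.choose_le_two_pow _ _).trans
          (Nat.pow_le_pow_right (by norm_num) hl)
        exact_mod_cast h2
      · rw [Polynomial.coeff_eq_zero_of_natDegree_lt (by omega)]
        simp only [Int.cast_zero, abs_zero, mul_zero]
        positivity
    · rw [hL]; ring
  have hDX : ∀ j, Dm (Polynomial.hasseDeriv j (Polynomial.X ^ i : Polynomial ℤ)) (2 ^ n * L) := by
    intro j
    have h1 : (Polynomial.hasseDeriv j (Polynomial.X ^ i : Polynomial ℤ)).natDegree ≤ n :=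
      (Polynomial.natDegree_hasseDeriv_le _ j).trans (by
        rw [Polynomial.natDegree_X_pow]; omega)
    refine (Dm.of_bound (B := 2 ^ n) h1 (by positivity) fun l _ => ?_).mono ?_
    · rw [Polynomial.hasseDeriv_coeff, Polynomial.coeff_X_pow]
      push_cast
      rw [abs_mul]
      by_cases hl : l + j = i
      · rw [if_pos hl, abs_one, mul_one, abs_of_nonneg (by positivity)]
        have h2 : (l + j).choose j ≤ 2 ^ n := (Nat.choose_le_two_pow _ _).trans
          (Nat.pow_le_pow_right (by norm_num) (by omega))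
        exact_mod_cast h2
      · rw [if_neg hl, abs_zero, mul_zero]
        positivity
    · rw [hL]
      have h3 : (0 : ℝ) ≤ ((n : ℝ) + 1) * 2 ^ n := by positivity
      nlinarith
  induction k using Nat.strong_induction_on with
  | _ k ih =>
    choose! P hP1 hP2 hP3 using ih
    refine ⟨T ^ k * Polynomial.hasseDeriv k (Polynomial.X ^ i)
      - ∑ j ∈ Finset.range k, T ^ j * Polynomial.hasseDeriv (j + 1) T * P (k - (j + 1)), ?_, ?_, ?_⟩
    · refine (Polynomial.natDegree_sub_le _ _).trans (max_le ?_ ?_)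
      · refine Polynomial.natDegree_mul_le.trans (add_le_add ?_ ?_)
        · refine Polynomial.natDegree_pow_le.trans ?_
          rw [mul_comm]
          exact Nat.mul_le_mul_right _ hn
        · refine (Polynomial.natDegree_hasseDeriv_le _ k).trans ?_
          rw [Polynomial.natDegree_X_pow]
          omega
      · refine Polynomial.natDegree_sum_le_of_forall_le _ _ fun j hj => ?_
        rw [Finset.mem_range] at hj
        refine Polynomial.natDegree_mul_le.trans ?_
        have e1 : (T ^ j * Polynomial.hasseDeriv (j + 1) T).natDegree ≤ n * j + n := by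
          refine Polynomial.natDegree_mul_le.trans (add_le_add ?_ ?_)
          · refine Polynomial.natDegree_pow_le.trans ?_
            rw [mul_comm]
            exact Nat.mul_le_mul_right _ hn
          · exact (Polynomial.natDegree_hasseDeriv_le T _).trans (by omega)
        refine (add_le_add e1 (hP1 (k - (j + 1)) (by omega))).trans (le_of_eq ?_)
        obtain ⟨r, rfl⟩ : ∃ r, k = j + 1 + r := ⟨k - (j + 1), by omega⟩
        rw [show j + 1 + r - (j + 1) = r by omega]
        ring
    · have hA := (hDT.pow k).mul (hDX k)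
      have hB : Dm (∑ j ∈ Finset.range k, T ^ j * Polynomial.hasseDeriv (j + 1) T * P (k - (j + 1)))
          (∑ j ∈ Finset.range k, L ^ j * (2 ^ n * L) *
            (L ^ (k - (j + 1) + 1) * 2 ^ n * (1 + 2 ^ n) ^ (k - (j + 1)))) := by
        refine Dm.sum _ fun j hj => ?_
        rw [Finset.mem_range] at hj
        exact ((hDT.pow j).mul (hDh (j + 1))).mul (hP2 (k - (j + 1)) (by omega))
      rw [sub_eq_add_neg]
      refine (hA.add hB.neg).mono (le_of_eq ?_)
      have e1 : ∀ j ∈ Finset.range k, L ^ j * (2 ^ n * L) *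
            (L ^ (k - (j + 1) + 1) * 2 ^ n * (1 + 2 ^ n) ^ (k - (j + 1)))
          = L ^ (k + 1) * 2 ^ n * (2 ^ n * (1 + 2 ^ n) ^ (k - 1 - j)) := by
        intro j hj
        rw [Finset.mem_range] at hj
        have e2 : L ^ (k + 1) = L ^ j * L * L ^ (k - (j + 1) + 1) := by
          rw [← pow_succ, ← pow_add]
          congr 1
          omega
        rw [e2, show k - 1 - j = k - (j + 1) by omega]
        ring
      rw [Finset.sum_congr rfl e1, ← Finset.mul_sum,
        Finset.sum_range_reflect (fun j => (2 : ℝ) ^ n * (1 + 2 ^ n) ^ j) k, ← Finset.mul_sum]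
      have h5 := geom_sum_mul (1 + (2 : ℝ) ^ n) k
      rw [add_sub_cancel_left] at h5
      rw [mul_comm ((2 : ℝ) ^ n) (∑ j ∈ Finset.range k, (1 + (2 : ℝ) ^ n) ^ j), h5]
      ring
    · rw [ps_sub, ps_mul, ps_pow, ps_hasse, ps_X_pow, ps_sum]
      have hW : ps T * (X ^ i * U T) = X ^ i := by
        calc ps T * (X ^ i * U T) = X ^ i * (ps T * U T) := by ring
          _ = X ^ i := by rw [ps_mul_U h0, mul_one]
      have h1 := hd_mul k (ps T) (X ^ i * U T)
      rw [hW, Finset.Nat.sum_antidiagonal_eq_sum_range_succ_mk, Finset.sum_range_succ'] at h1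
      simp only [Nat.sub_zero, hd_zero] at h1
      have h2 : ∀ j ∈ Finset.range k, ps (T ^ j * Polynomial.hasseDeriv (j + 1) T * P (k - (j + 1)))
          = ps T ^ k * (hd (j + 1) (ps T) * hd (k - (j + 1)) (X ^ i * U T)) := by
        intro j hj
        rw [Finset.mem_range] at hj
        rw [ps_mul, ps_mul, ps_pow, ps_hasse, hP3 (k - (j + 1)) (by omega)]
        have e2 : ps T ^ k = ps T ^ j * ps T ^ (k - (j + 1) + 1) := by
          rw [← pow_add]
          congr 1
          omega
        rw [e2]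
        ring
      rw [Finset.sum_congr rfl h2, ← Finset.mul_sum, h1]
      ring

/-- the derivatives of `F T i` -/
lemma hd_F (T : Polynomial ℤ) (i s : ℕ) :
    ((s + 1 : ℕ) : ℚ⟦X⟧) * hd (s + 1) (F T i) = hd s (X ^ i * U T) := by
  ext m
  have h1 : (((s + 1 : ℕ) : ℚ⟦X⟧)) = PowerSeries.C ((s + 1 : ℕ) : ℚ) := by simp
  rw [h1, coeff_C_mul, coeff_hd, coeff_hd, coeff_X_pow_mul']
  unfold F
  rw [coeff_mk]
  by_cases hm : m + (s + 1) ≤ i
  · rw [if_pos hm, if_neg (by omega)]
    ring
  · rw [if_neg hm, if_pos (by omega)]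
    rw [show m + (s + 1) - 1 - i = m + s - i by omega]
    have h2 : ((m + (s + 1)).choose (s + 1) : ℚ) * ((s + 1 : ℕ) : ℚ)
        = ((m + (s + 1) : ℕ) : ℚ) * ((m + s).choose s : ℚ) := by
      have := Nat.add_one_mul_choose_eq (m + s) s
      rw [show m + (s + 1) = m + s + 1 by ring]
      exact_mod_cast this.symm
    have h3 : ((m + (s + 1) : ℕ) : ℚ) ≠ 0 := by positivity
    calc ((s + 1 : ℕ) : ℚ) * (((m + (s + 1)).choose (s + 1) : ℚ) *
          (coeff (m + s - i) (U T) / ((m + (s + 1) : ℕ) : ℚ)))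
        = (((m + (s + 1)).choose (s + 1) : ℚ) * ((s + 1 : ℕ) : ℚ)) *
          (coeff (m + s - i) (U T) / ((m + (s + 1) : ℕ) : ℚ)) := by ring
      _ = ((m + s).choose s : ℚ) * coeff (m + s - i) (U T) := by
          rw [h2]
          field_simp

lemma hd_one (s : ℕ) (hs : s ≠ 0) : hd s (1 : ℚ⟦X⟧) = 0 := by
  ext m
  rw [coeff_hd, coeff_one, if_neg (by omega)]
  simp

theorem base_holds : S_base := by
  intro n
  refine ⟨2 * n + 10, fun H T h0 hn hT => ?_⟩
  have hH : (1 : ℝ) ≤ H := by
    have := hT 0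
    rw [h0] at this
    have h1 : (1 : ℤ) ≤ H := by simpa using this
    exact_mod_cast h1
  have hTr : ∀ l, |((T.coeff l : ℤ) : ℝ)| ≤ H := fun l => by exact_mod_cast hT l
  set C : ℝ := ((H : ℝ) + 2) ^ (2 * n + 10) with hC
  have hb1 : (1 : ℝ) ≤ (H : ℝ) + 2 := by linarith
  have hC1 : 1 ≤ C := one_le_pow₀ hb1
  have hHC : (H : ℝ) + 1 ≤ C := by
    calc (H : ℝ) + 1 ≤ (H : ℝ) + 2 := by linarith
      _ = ((H : ℝ) + 2) ^ 1 := (pow_one _).symm
      _ ≤ _ := pow_le_pow_right₀ hb1 (by omega)
  have h28 : ((2 : ℝ) ^ 8) ≤ C := by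
    calc ((2 : ℝ) ^ 8) ≤ ((H : ℝ) + 2) ^ 8 := pow_le_pow_left₀ (by norm_num) (by linarith) _
      _ ≤ _ := pow_le_pow_right₀ hb1 (by omega)
  have hbig : (2 : ℝ) ^ 8 * ((((n : ℝ) + 1) * H) * (1 + 2 ^ n)) ≤ C := by
    have e1 : (2 : ℝ) ^ 8 ≤ ((H : ℝ) + 2) ^ 8 := pow_le_pow_left₀ (by norm_num) (by linarith) _
    have e2 : (n : ℝ) + 1 ≤ ((H : ℝ) + 2) ^ n :=
      (succ_le_two_pow n).trans (pow_le_pow_left₀ (by norm_num) (by linarith) _)
    have e3 : (H : ℝ) ≤ ((H : ℝ) + 2) ^ 1 := by rw [pow_one]; linarith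
    have e4 : 1 + (2 : ℝ) ^ n ≤ ((H : ℝ) + 2) ^ (n + 1) := by
      have : (1 : ℝ) ≤ 2 ^ n := one_le_pow₀ (by norm_num)
      calc 1 + (2 : ℝ) ^ n ≤ 2 ^ (n + 1) := by rw [pow_succ]; linarith
        _ ≤ _ := pow_le_pow_left₀ (by norm_num) (by linarith) _
    calc (2 : ℝ) ^ 8 * ((((n : ℝ) + 1) * H) * (1 + 2 ^ n))
        ≤ ((H : ℝ) + 2) ^ 8 * ((((H : ℝ) + 2) ^ n * ((H : ℝ) + 2) ^ 1) * ((H : ℝ) + 2) ^ (n + 1)) := by
          gcongr
      _ = C := by
          rw [hC, ← pow_add, ← pow_add, ← pow_add]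
          congr 1
          ring
  have hlcm : ∀ m : ℕ, ((Nat.lcmUpto m : ℕ) : ℝ) ≤ C ^ (m + 1) := by
    intro m
    refine (lcm_bound m).trans ?_
    calc ((2 : ℝ) ^ 8) ^ m ≤ C ^ m := pow_le_pow_left₀ (by positivity) h28 _
      _ ≤ _ := pow_le_pow_right₀ hC1 (by omega)
  refine ⟨hC1, hn, fun l => (hTr l).trans (by linarith), ?_, ?_, ?_⟩
  · rintro (_ | s) m
    · simp only [Option.elim_none, coeff_one]
      have : (1 : ℝ) ≤ C ^ (m + 1) := one_le_pow₀ hC1
      split_ifs
      · simpa using this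
      · simp only [Rat.cast_zero, abs_zero]; linarith
    · simp only [Option.elim_some]
      unfold F
      rw [coeff_mk]
      split_ifs with hm
      · simp only [Rat.cast_zero, abs_zero]; positivity
      · obtain ⟨a, ha1, ha2⟩ := U_coeff h0 hT (m - 1 - s)
        rw [ha1]
        push_cast
        rw [abs_div]
        have hm1 : (1 : ℝ) ≤ |(m : ℝ)| := by
          rw [abs_of_nonneg (by positivity)]
          have : 1 ≤ m := by omega
          exact_mod_cast this
        calc |(a : ℝ)| / |(m : ℝ)| ≤ |(a : ℝ)| := div_le_self (abs_nonneg _) hm1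
          _ ≤ ((H : ℝ) + 1) ^ (m - 1 - (s : ℕ)) := ha2
          _ ≤ ((H : ℝ) + 1) ^ (m + 1) := pow_le_pow_right₀ (by linarith) (by omega)
          _ ≤ _ := pow_le_pow_left₀ (by positivity) hHC _
  · intro m
    refine ⟨Nat.lcmUpto m, Nat.lcmUpto_pos m, hlcm m, ?_⟩
    rintro (_ | s) j hj
    · simp only [Option.elim_none, coeff_one]
      split_ifs
      · exact ⟨Nat.lcmUpto m, by simp⟩
      · exact ⟨0, by simp⟩
    · simp only [Option.elim_some]
      unfold F
      rw [coeff_mk]
      split_ifs with hjs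
      · exact ⟨0, by simp⟩
      · obtain ⟨a, ha1, _⟩ := U_coeff h0 hT (j - 1 - s)
        obtain ⟨b, hb⟩ := lcm_div (j := j) (n := m) (by omega) hj
        refine ⟨b * a, ?_⟩
        rw [ha1]
        push_cast
        rw [← hb]
        ring
  · intro k
    refine ⟨Nat.lcmUpto k, Nat.lcmUpto_pos k, hlcm k, ?_⟩
    intro s hs
    rcases Nat.eq_zero_or_pos s with rfl | hs0
    · classical
      refine ⟨fun i j => if i = j then Polynomial.C ((Nat.lcmUpto k : ℕ) : ℤ) else 0, ?_, ?_, ?_⟩
      · intro i j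
        dsimp only
        split_ifs <;> simp
      · intro i j l
        dsimp only
        have h1 : (0 : ℝ) ≤ C ^ (k + 1) := by positivity
        split_ifs
        · rw [Polynomial.coeff_C]
          split_ifs
          · push_cast
            rw [abs_of_nonneg (by positivity)]
            exact hlcm k
          · simpa using h1
        · simpa using h1
      · intro i
        rw [Finset.sum_eq_single i]
        · dsimp only
          rw [if_pos rfl, ps_C, hd_zero, pow_zero, one_mul]
          push_cast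
          rfl
        · intro j _ hj
          dsimp only
          rw [if_neg (Ne.symm hj), ps_zero, zero_mul]
        · intro h
          exact absurd (Finset.mem_univ i) h
    · obtain ⟨r, rfl⟩ : ∃ r, s = r + 1 := ⟨s - 1, by omega⟩
      obtain ⟨c, hc⟩ := dvd_lcmUpto (j := r + 1) (n := k) (by omega) hs
      choose P hP1 hP2 hP3 using fun i : Fin n => numer h0 hn hT (i : ℕ) i.2 r
      refine ⟨fun i j => i.elim 0 fun i' => j.elim (Polynomial.C (c : ℤ) * P i') fun _ => 0, ?_, ?_,
        ?_⟩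
      · rintro (_ | i) (_ | j)
        · simp
        · simp
        · simp only [Option.elim_some, Option.elim_none]
          refine (Polynomial.natDegree_C_mul_le _ _).trans ((hP1 i).trans ?_)
          have := i.2
          rw [Nat.mul_succ]
          omega
        · simp
      · have h1 : (0 : ℝ) ≤ C ^ (k + 1) := by positivity
        rintro (_ | i) (_ | j) l
        · simpa using h1
        · simpa using h1
        · simp only [Option.elim_some, Option.elim_none]
          rw [Polynomial.coeff_C_mul]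
          push_cast
          rw [abs_mul]
          have h2 : |((c : ℤ) : ℝ)| ≤ (2 ^ 8) ^ k := by
            have h3 : (c : ℝ) ≤ Nat.lcmUpto k := by
              rw [hc]
              push_cast
              have hr0 : (0 : ℝ) ≤ r := by positivity
              have hc0 : (0 : ℝ) ≤ c := by positivity
              nlinarith
            push_cast
            rw [abs_of_nonneg (by positivity)]
            exact h3.trans (lcm_bound k)
          have h4 := (hP2 i).coeff l
          set L : ℝ := ((n : ℝ) + 1) * H with hL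
          have hL1 : 1 ≤ L := by
            rw [hL]
            have : (1 : ℝ) ≤ (n : ℝ) + 1 := by linarith [show (0 : ℝ) ≤ n by positivity]
            nlinarith
          have hK1 : (1 : ℝ) ≤ 1 + 2 ^ n := by linarith [show (0 : ℝ) ≤ 2 ^ n by positivity]
          clear_value L
          have h5 : L ^ (r + 1) * 2 ^ n * (1 + 2 ^ n) ^ r ≤ (L * (1 + 2 ^ n)) ^ (k + 1) := by
            calc L ^ (r + 1) * 2 ^ n * (1 + 2 ^ n) ^ r
                ≤ L ^ (r + 1) * (1 + 2 ^ n) * (1 + 2 ^ n) ^ r := by
                  refine mul_le_mul_of_nonneg_right (mul_le_mul_of_nonneg_left ?_ (by positivity))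
                    (by positivity)
                  linarith
              _ = (L * (1 + 2 ^ n)) ^ (r + 1) := by
                  rw [mul_pow]; ring
              _ ≤ _ := pow_le_pow_right₀ (by nlinarith) (by omega)
          have h2' : |((c : ℤ) : ℝ)| ≤ (2 ^ 8) ^ (k + 1) :=
            h2.trans (pow_le_pow_right₀ (by norm_num) (by omega))
          have h6 := mul_le_mul h2' (h4.trans h5) (abs_nonneg _) (by positivity)
          push_cast at h6
          refine h6.trans ?_
          rw [← mul_pow]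
          exact pow_le_pow_left₀ (by positivity) hbig _
        · simpa using h1
      · rintro (_ | i)
        · simp only [Option.elim_none]
          rw [hd_one (r + 1) (by omega)]
          simp [ps_zero]
        · simp only [Option.elim_some]
          rw [Fintype.sum_option]
          simp only [Option.elim_none, Option.elim_some, ps_zero, zero_mul, Finset.sum_const_zero,
            add_zero, mul_one]
          rw [ps_mul, ps_C, hP3 i, ← hd_F, hc]
          push_cast
          ring

end Pool.Agent.Y419.LB
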